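import Mathlib
import Pool.Agent.K7.H98.EW.Tran

set_option autoImplicit false

/-!
The ballisticity criterion for one-dimensional excited random walks in i.i.d. cookie environments
with non-negative drifts, without any bound on the number of cookies per site.
-/

namespace Pool.Agent.Results.MP_7ca543_pr.BallisticityCriterion

open MeasureTheory ProbabilityTheory Filter
open scoped ENNReal Topology

/-- Cookie environments on the integers: `ω z i` is the probability of a step to the right on the
`(i+1)`-st visit to `z`, for `i = 0, 1, 2, ...`. -/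
abbrev Cookies : Type := ℤ → ℕ → ℝ

/-- `X` is an excited random walk started from `0` in the random cookie environment `env`, under
the (averaged) probability measure `μ`: almost surely the environment takes values in `[0,1]`, the
walk starts at `0` and is nearest-neighbour, and, given the environment and the walk up to time
`n`, the next step is to the right with the probability prescribed by the cookie at `X n` whose
index is the number of visits to `X n` up to time `n`. -/
structure IsERW {Ω : Type*} [MeasurableSpace Ω] (μ : Measure Ω) (env : Ω → Cookies)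
    (X : ℕ → Ω → ℤ) : Prop where
  measurable_env : Measurable env
  measurable_walk : ∀ n, Measurable (X n)
  unit_interval : ∀ᵐ a ∂μ, ∀ z i, env a z i ∈ Set.Icc (0 : ℝ) 1
  start : ∀ᵐ a ∂μ, X 0 a = 0
  nearest : ∀ᵐ a ∂μ, ∀ n, X (n + 1) a = X n a + 1 ∨ X (n + 1) a = X n a - 1
  step_right : ∀ (n : ℕ) (x : ℕ → ℤ) (A : Set Cookies), MeasurableSet A →
      μ.real {a | env a ∈ A ∧ (∀ m ≤ n, X m a = x m) ∧ X (n + 1) a = x n + 1} =
        ∫ a in {a | env a ∈ A ∧ ∀ m ≤ n, X m a = x m},
          env a (x n) ((Finset.range n).filter (fun m => x m = x n)).card ∂μ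

/-- The drift parameter `δ = E[∑_i (2ω(0,i) - 1)]`, as an extended non-negative number; the
truncation of negative terms is void for environments with `ω ≥ 1/2`. -/
noncomputable def driftParam {Ω : Type*} [MeasurableSpace Ω] (μ : Measure Ω) (env : Ω → Cookies) :
    ℝ≥0∞ :=
  ∫⁻ a, ∑' i, ENNReal.ofReal (2 * env a 0 i - 1) ∂μ

/-- Let `X` be an excited random walk on the integers in a random cookie environment satisfying
(IID), (POS) and (WEL). Then `X n / n` converges almost surely to a deterministic speed `v`, with
`v = 0` if `δ ≤ 2` and `v > 0` if `δ > 2`. -/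
theorem result {Ω : Type*} [MeasurableSpace Ω] (μ : Measure Ω) [IsProbabilityMeasure μ]
    (env : Ω → Cookies) (X : ℕ → Ω → ℤ) (hX : IsERW μ env X)
    (hind : iIndepFun (fun (z : ℤ) (a : Ω) => env a z) μ)
    (hid : ∀ z : ℤ, IdentDistrib (fun a => env a z) (fun a => env a 0) μ μ)
    (hpos : ∀ᵐ a ∂μ, ∀ z i, 1 / 2 ≤ env a z i)
    (hwel : 0 < μ {a | ∀ i, env a 0 i < 1}) :
    ∃ v : ℝ, (∀ᵐ a ∂μ, Tendsto (fun n : ℕ => (X n a : ℝ) / n) atTop (𝓝 v)) ∧
      (driftParam μ env ≤ 2 → v = 0) ∧ (2 < driftParam μ env → 0 < v) := by
  refine Pool.Agent.K7.H98.EW.main μ env X hX.measurable_env hX.measurable_walk ?_ hX.start ?_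
    hind hid hwel
  · filter_upwards [hpos, hX.unit_interval] with a h1 h2 z k
    exact ⟨h1 z k, (h2 z k).2⟩
  · intro n x b A hA
    have hright := hX.step_right n x A hA
    cases b
    · have hSm : MeasurableSet {a | env a ∈ A ∧ ∀ m ≤ n, X m a = x m} := by
        have : {a | env a ∈ A ∧ ∀ m ≤ n, X m a = x m} =
            env ⁻¹' A ∩ ⋂ m ∈ Finset.range (n + 1), X m ⁻¹' {x m} := by
          ext a; simp
        rw [this]
        exact (hX.measurable_env hA).inter (Finset.measurableSet_biInter _ fun i _ =>
          hX.measurable_walk i (measurableSet_singleton _))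
      have hRm : MeasurableSet {a | env a ∈ A ∧ (∀ m ≤ n, X m a = x m) ∧ X (n + 1) a = x n + 1} := by
        have : {a | env a ∈ A ∧ (∀ m ≤ n, X m a = x m) ∧ X (n + 1) a = x n + 1} =
            {a | env a ∈ A ∧ ∀ m ≤ n, X m a = x m} ∩ X (n + 1) ⁻¹' {x n + 1} := by
          ext a; simp [and_assoc]
        rw [this]
        exact hSm.inter (hX.measurable_walk _ (measurableSet_singleton _))
      have hsub : {a | env a ∈ A ∧ (∀ m ≤ n, X m a = x m) ∧ X (n + 1) a = x n + 1} ⊆
          {a | env a ∈ A ∧ ∀ m ≤ n, X m a = x m} := fun a h => ⟨h.1, h.2.1⟩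
      have h1 : μ.real {a | env a ∈ A ∧ (∀ m ≤ n, X m a = x m) ∧
          X (n + 1) a = x n + Pool.Agent.K7.H98.EW.gz.u false} =
          μ.real ({a | env a ∈ A ∧ ∀ m ≤ n, X m a = x m} \
            {a | env a ∈ A ∧ (∀ m ≤ n, X m a = x m) ∧ X (n + 1) a = x n + 1}) := by
        refine measureReal_congr ?_
        filter_upwards [hX.nearest] with a ha
        refine propext ⟨fun h => ⟨⟨h.1, h.2.1⟩, fun h' => ?_⟩, fun h => ⟨h.1.1, h.1.2, ?_⟩⟩
        · have h2 : X (n + 1) a = x n + (-1) := h.2.2
          have h3 : X (n + 1) a = x n + 1 := h'.2.2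
          omega
        · show X (n + 1) a = x n + (-1)
          have h2 : X n a = x n := h.1.2 n le_rfl
          rcases ha n with h3 | h3
          · exact absurd ⟨h.1.1, h.1.2, by rw [h3, h2]⟩ h.2
          · rw [h3, h2]; rfl
      rw [h1, measureReal_sdiff hsub hRm, hright]
      have hint : Integrable (fun a => env a (x n)
          ((Finset.range n).filter (fun m => x m = x n)).card)
          (μ.restrict {a | env a ∈ A ∧ ∀ m ≤ n, X m a = x m}) := by
        refine Integrable.of_bound (((measurable_pi_apply _).comp
          ((measurable_pi_apply _).comp hX.measurable_env)).aestronglyMeasurable) 1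
          (ae_restrict_of_ae ?_)
        filter_upwards [hX.unit_interval] with a ha
        rw [Real.norm_eq_abs, abs_of_nonneg (ha _ _).1]
        exact (ha _ _).2
      have h4 : ∫ a in {a | env a ∈ A ∧ ∀ m ≤ n, X m a = x m},
          Pool.Agent.K7.H98.EW.wt false (env a (x n)
            ((Finset.range n).filter (fun m => x m = x n)).card) ∂μ =
          ∫ a in {a | env a ∈ A ∧ ∀ m ≤ n, X m a = x m},
            ((1 : ℝ) - env a (x n) ((Finset.range n).filter (fun m => x m = x n)).card) ∂μ := rfl
      rw [h4, integral_sub (integrable_const _) hint]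
      simp
    · exact hright

end Pool.Agent.Results.MP_7ca543_pr.BallisticityCriterion
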